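import Pool.Agent.H508R3.AT.Stmts

set_option autoImplicit false

namespace Pool.Agent.H378R3.ATT8a

open MeasureTheory Filter Topology Set Matrix
open Pool.Agent.H695R3.AT
open Pool.Agent.H508R3.SC (M2 ns)
open Pool.Agent.H508R3.AT

/-- the image of the unit disc -/
def DD (A : M2) : Set (ℝ × ℝ) :=
  {z | (A 1 1 * z.1 - A 0 1 * z.2) ^ 2 + (A 0 0 * z.2 - A 1 0 * z.1) ^ 2 ≤ 1}

def disc : Set (ℝ × ℝ) := {z | z.1 ^ 2 + z.2 ^ 2 ≤ 1}

lemma disc_vol : volume disc = ENNReal.ofReal Real.pi := by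
  have h := Complex.volume_preserving_equiv_real_prod
  have hm : MeasurableSet disc := by
    apply measurableSet_le <;> fun_prop
  rw [← h.measure_preimage hm.nullMeasurableSet]
  have h2 : Complex.measurableEquivRealProd ⁻¹' disc = Metric.closedBall (0 : ℂ) 1 := by
    ext z
    simp only [disc, mem_preimage, mem_ofPred_eq, mem_closedBall_zero_iff]
    rw [Complex.measurableEquivRealProd_apply]
    constructor
    · intro h
      rw [← abs_of_nonneg (norm_nonneg z), ← sq_le_one_iff_abs_le_one, ← Complex.normSq_eq_norm_sq,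
        Complex.normSq_apply]
      simp only at h
      nlinarith
    · intro h
      have h1 : ‖z‖ ^ 2 ≤ 1 := by nlinarith [norm_nonneg z]
      rw [← Complex.normSq_eq_norm_sq, Complex.normSq_apply] at h1
      simp only
      nlinarith
  rw [h2, Complex.volume_closedBall]
  simp [NNReal.pi, ENNReal.ofReal, Real.toNNReal_of_nonneg Real.pi_pos.le]
  rfl

lemma DD_vol (A : M2) (hA : A.det = 1) : volume (DD A) = ENNReal.ofReal Real.pi := by
  let M : Matrix (Fin 2) (Fin 2) ℝ := !![A 1 1, -A 0 1; -A 1 0, A 0 0]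
  let f : (ℝ × ℝ) →ₗ[ℝ] (ℝ × ℝ) := Matrix.toLin (Module.Basis.finTwoProd ℝ) (Module.Basis.finTwoProd ℝ) M
  have hdet : LinearMap.det f = 1 := by
    rw [LinearMap.det_toLin]
    simp only [M, Matrix.det_fin_two_of]
    rw [Matrix.det_fin_two] at hA
    linarith
  have hpre : DD A = f ⁻¹' disc := by
    ext z
    simp only [DD, disc, mem_ofPred_eq, mem_preimage, f, M, Matrix.toLin_finTwoProd_apply]
    constructor <;> intro h <;> nlinarith
  rw [hpre, Measure.addHaar_preimage_linearMap _ (by rw [hdet]; norm_num), hdet, disc_vol]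
  simp

lemma DD_sub (A : M2) (hA : A.det = 1) (K : ℝ) (hK : ns A ≤ K) :
    DD A ⊆ {z : ℝ × ℝ | z.1 ^ 2 + z.2 ^ 2 ≤ K} := by
  rintro ⟨x, y⟩ hz
  simp only [DD, mem_ofPred_eq] at hz ⊢
  rw [Matrix.det_fin_two] at hA
  obtain ⟨w1, hw1⟩ : ∃ w1, w1 = A 1 1 * x - A 0 1 * y := ⟨_, rfl⟩
  obtain ⟨w2, hw2⟩ : ∃ w2, w2 = A 0 0 * y - A 1 0 * x := ⟨_, rfl⟩
  rw [← hw1, ← hw2] at hz
  have hx : x = A 0 0 * w1 + A 0 1 * w2 := by
    rw [hw1, hw2]
    calc x = (A 0 0 * A 1 1 - A 0 1 * A 1 0) * x := by rw [hA, one_mul]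
      _ = _ := by ring
  have hy : y = A 1 0 * w1 + A 1 1 * w2 := by
    rw [hw1, hw2]
    calc y = (A 0 0 * A 1 1 - A 0 1 * A 1 0) * y := by rw [hA, one_mul]
      _ = _ := by ring
  have h1 : x ^ 2 ≤ (A 0 0 ^ 2 + A 0 1 ^ 2) * (w1 ^ 2 + w2 ^ 2) := by
    rw [hx]; nlinarith [sq_nonneg (A 0 0 * w2 - A 0 1 * w1)]
  have h2 : y ^ 2 ≤ (A 1 0 ^ 2 + A 1 1 ^ 2) * (w1 ^ 2 + w2 ^ 2) := by
    rw [hy]; nlinarith [sq_nonneg (A 1 0 * w2 - A 1 1 * w1)]
  have h3 : x ^ 2 + y ^ 2 ≤ ns A * (w1 ^ 2 + w2 ^ 2) := by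
    unfold ns
    nlinarith
  have h4 : 0 ≤ ns A := by unfold ns; positivity
  nlinarith [sq_nonneg w1, sq_nonneg w2]

theorem t8a : T8a := by
  intro s lam Pv hP N k
  have hmeas : MeasurableSet {p : Om s × (ℝ × (ℝ × ℝ)) |
      ((TT s lam p.1 p.2.1 N k) 1 1 * p.2.2.1 - (TT s lam p.1 p.2.1 N k) 0 1 * p.2.2.2) ^ 2 +
      ((TT s lam p.1 p.2.1 N k) 0 0 * p.2.2.2 - (TT s lam p.1 p.2.1 N k) 1 0 * p.2.2.1) ^ 2 ≤ 1} := by
    have hT : ∀ i j, Measurable (fun p : Om s × (ℝ × (ℝ × ℝ)) => (TT s lam p.1 p.2.1 N k) i j) :=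
      fun i j => (TT_meas (s := s) lam N k i j).comp
        (measurable_fst.prodMk (measurable_fst.comp measurable_snd))
    have h00 := hT 0 0
    have h01 := hT 0 1
    have h10 := hT 1 0
    have h11 := hT 1 1
    apply measurableSet_le
    · fun_prop
    · exact measurable_const
  refine ⟨?_, fun E => ⟨fun z => ⟨measureReal_nonneg, measureReal_le_one⟩, ?_⟩⟩
  · exact (measurable_measure_prodMk_right hmeas).ennreal_toReal
  · have hmE : MeasurableSet {p : Om s × (ℝ × ℝ) | p.2 ∈ DD (TT s lam p.1 E N k)} := by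
      have hc : Measurable (fun p : Om s × (ℝ × ℝ) => (p.1, ((E, p.2) : ℝ × (ℝ × ℝ)))) := by fun_prop
      exact hc hmeas
    have hton : ∀ (ν : Measure (ℝ × ℝ)) [SFinite ν],
        ∫⁻ z, ENNReal.ofReal (ff s lam Pv E N k z) ∂ν =
          ∫⁻ v, ν (DD (TT s lam v E N k)) ∂(PP s Pv) := by
      intro ν _
      have h1 := Measure.prod_apply (μ := PP s Pv) (ν := ν) hmE
      have h2 := Measure.prod_apply_symm (μ := PP s Pv) (ν := ν) hmE
      rw [h1] at h2
      have h3 : ∀ z, ENNReal.ofReal (ff s lam Pv E N k z) =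
          PP s Pv ((fun v => (v, z)) ⁻¹' {p : Om s × (ℝ × ℝ) | p.2 ∈ DD (TT s lam p.1 E N k)}) := by
        intro z
        unfold ff
        rw [Measure.real, ENNReal.ofReal_toReal (measure_ne_top _ _)]
        rfl
      simp_rw [h3]
      exact h2.symm
    constructor
    · rw [hton volume]
      have h4 : ∀ v, volume (DD (TT s lam v E N k)) = ENNReal.ofReal Real.pi :=
        fun v => DD_vol _ (TT_det _ _ _ _ _)
      simp_rw [h4]
      rw [lintegral_const, measure_univ, mul_one]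
      exact ENNReal.ofReal_le_ofReal Real.pi_le_four
    · intro K hK
      rw [hton (volume.restrict {z : ℝ × ℝ | z.1 ^ 2 + z.2 ^ 2 ≤ K})]
      have hns : MeasurableSet {v : Om s | ns (TT s lam v E N k) ≤ K} := by
        have hT : ∀ i j, Measurable (fun v : Om s => (TT s lam v E N k) i j) :=
          fun i j => (TT_meas (s := s) lam N k i j).comp (measurable_id.prodMk measurable_const)
        have h00 := hT 0 0
        have h01 := hT 0 1
        have h10 := hT 1 0
        have h11 := hT 1 1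
        unfold ns
        apply measurableSet_le
        · fun_prop
        · exact measurable_const
      have hB : MeasurableSet {z : ℝ × ℝ | z.1 ^ 2 + z.2 ^ 2 ≤ K} := by
        apply measurableSet_le
        · fun_prop
        · exact measurable_const
      calc ENNReal.ofReal (3 * (PP s Pv).real {v | ns (TT s lam v E N k) ≤ K})
          = ENNReal.ofReal 3 * (PP s Pv) {v | ns (TT s lam v E N k) ≤ K} := by
            rw [ENNReal.ofReal_mul (by norm_num), Measure.real,
              ENNReal.ofReal_toReal (measure_ne_top _ _)]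
        _ = ∫⁻ _v in {v | ns (TT s lam v E N k) ≤ K}, ENNReal.ofReal 3 ∂(PP s Pv) := by
            rw [setLIntegral_const]
        _ ≤ ∫⁻ v in {v | ns (TT s lam v E N k) ≤ K},
              (volume.restrict {z : ℝ × ℝ | z.1 ^ 2 + z.2 ^ 2 ≤ K}) (DD (TT s lam v E N k)) ∂(PP s Pv) := by
            apply setLIntegral_mono' hns
            intro v hv
            rw [Measure.restrict_apply' hB, inter_eq_left.2 (DD_sub _ (TT_det _ _ _ _ _) K hv),
              DD_vol _ (TT_det _ _ _ _ _)]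
            exact ENNReal.ofReal_le_ofReal Real.pi_gt_three.le
        _ ≤ _ := setLIntegral_le_lintegral _ _

end Pool.Agent.H378R3.ATT8a
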