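import Pool.Agent.H452R3.CHI.Stmts

set_option autoImplicit false

namespace Pool.Agent.H378R3.CHIGJ

open Pool.Agent.H452R3.CHI Finset

/-- pairs `i < j` -/
abbrev PT (n : ℕ) : Type := {p : Fin n × Fin n // p.1 < p.2}

/-- pairs inside `K` -/
def PP {n : ℕ} (K : Finset (Fin n)) : Finset (PT n) :=
  Finset.univ.filter (fun p => p.1.1 ∈ K ∧ p.1.2 ∈ K)

lemma prod_pairs {n : ℕ} (f : Fin n → Fin n → ℝ) :
    (∏ i : Fin n, ∏ j : Fin n, if i < j then f i j else 1) = ∏ p : PT n, f p.1.1 p.1.2 := by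
  rw [← Finset.prod_product', Finset.univ_product_univ]
  rw [← Finset.prod_filter (fun p : Fin n × Fin n => p.1 < p.2) (fun p => f p.1 p.2)]
  exact Finset.prod_subtype _ (by simp) _

lemma sum_pairs {n : ℕ} (f : Fin n → Fin n → ℝ) :
    (∑ i : Fin n, ∑ j : Fin n, if i < j then f i j else 0) = ∑ p : PT n, f p.1.1 p.1.2 := by
  rw [← Finset.sum_product', Finset.univ_product_univ]
  rw [← Finset.sum_filter (fun p : Fin n × Fin n => p.1 < p.2) (fun p => f p.1 p.2)]
  exact Finset.sum_subtype _ (by simp) _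

lemma sm_eq {n : ℕ} (a : Fin n → Fin n → ℝ) (K : Finset (Fin n)) :
    sm a K = ∑ p ∈ PP K, a p.1.1 p.1.2 := by
  classical
  unfold sm PP
  rw [Finset.sum_filter]
  have h1 := sum_pairs (n := n) (fun i j => if i ∈ K ∧ j ∈ K then a i j else 0)
  rw [← h1]
  rw [← Finset.sum_filter_add_sum_filter_not Finset.univ (fun i => i ∈ K) (fun i => ∑ j : Fin n, if i < j then (if i ∈ K ∧ j ∈ K then a i j else 0) else 0)]
  have h2 : (∑ i ∈ Finset.univ.filter (fun i => ¬ i ∈ K), ∑ j : Fin n, if i < j then (if i ∈ K ∧ j ∈ K then a i j else 0) else 0) = 0 := by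
    apply Finset.sum_eq_zero
    intro i hi
    rw [Finset.mem_filter] at hi
    apply Finset.sum_eq_zero
    intro j _
    simp [hi.2]
  rw [h2, add_zero]
  have h3 : Finset.univ.filter (fun i => i ∈ K) = K := by ext; simp
  rw [h3]
  apply Finset.sum_congr rfl
  intro i hi
  rw [← Finset.sum_filter_add_sum_filter_not Finset.univ (fun j => j ∈ K) (fun j => if i < j then (if i ∈ K ∧ j ∈ K then a i j else 0) else 0)]
  have h4 : (∑ j ∈ Finset.univ.filter (fun j => ¬ j ∈ K), if i < j then (if i ∈ K ∧ j ∈ K then a i j else 0) else 0) = 0 := by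
    apply Finset.sum_eq_zero
    intro j hj
    rw [Finset.mem_filter] at hj
    simp [hj.2]
  rw [h4, add_zero, h3]
  apply Finset.sum_congr rfl
  intro j hj
  simp [hi, hj]

lemma PP_inter {n : ℕ} (I J : Finset (Fin n)) (inst : DecidableEq (PT n)) :
    @Inter.inter _ (@Finset.instInter _ inst) (PP I) (PP J) = PP (I ∩ J) := by
  ext p
  simp only [PP, Finset.mem_inter, Finset.mem_filter, Finset.mem_univ, true_and]
  tauto

lemma sum_union_pairs {n : ℕ} (a : Fin n → Fin n → ℝ) (I J : Finset (Fin n)) (inst : DecidableEq (PT n)) :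
    (∑ p ∈ @Union.union _ (@Finset.instUnion _ inst) (PP I) (PP J), a p.1.1 p.1.2)
      = sm a I + sm a J - sm a (I ∩ J) := by
  have h := @Finset.sum_union_inter _ _ (PP I) (PP J) _ (fun p : PT n => a p.1.1 p.1.2) inst
  rw [PP_inter, ← sm_eq, ← sm_eq, ← sm_eq] at h
  linarith

lemma sum_pw {κ : Type} [Fintype κ] (f : κ → ℝ) : ∑ T : Finset κ, pw f T = 1 := by
  classical
  have h := Finset.prod_add (fun e => f e) (fun e => 1 - f e) (Finset.univ : Finset κ)
  simp only [add_sub_cancel, Finset.prod_const_one, Finset.powerset_univ] at h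
  rw [h]
  apply Finset.sum_congr rfl
  intro T _
  unfold pw
  rw [Finset.prod_ite]
  congr 1
  · apply Finset.prod_congr _ (fun _ _ => rfl)
    ext; simp
  · apply Finset.prod_congr _ (fun _ _ => rfl)
    ext; simp

lemma pw_nonneg {κ : Type} [Fintype κ] (f : κ → ℝ) (h0 : ∀ e, 0 ≤ f e) (h1 : ∀ e, f e ≤ 1)
    (T : Finset κ) : 0 ≤ pw f T := by
  unfold pw
  apply Finset.prod_nonneg
  intro e _
  split_ifs
  · exact h0 e
  · linarith [h1 e]

theorem taskGJ (hJ : TaskJanson) : TaskGJ := by
  classical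
  intro n a ha 𝓕 q hq0 hq1
  let FT : Type := {I : Finset (Fin n) // I ∈ 𝓕}
  let p : PT n ⊕ FT → ℝ := Sum.elim (fun p => 1 - Real.exp (- a p.1.1 p.1.2)) (fun I => 1 - q I.1)
  have hp0 : ∀ e, 0 ≤ p e := by
    rintro (e | I)
    · show 0 ≤ 1 - Real.exp (- a e.1.1 e.1.2)
      have : Real.exp (- a e.1.1 e.1.2) ≤ 1 := Real.exp_le_one_iff.2 (by linarith [ha e.1.1 e.1.2])
      linarith
    · show 0 ≤ 1 - q I.1
      linarith [hq1 I.1 I.2]
  have hp1 : ∀ e, p e ≤ 1 := by
    rintro (e | I)
    · show 1 - Real.exp (- a e.1.1 e.1.2) ≤ 1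
      linarith [Real.exp_pos (- a e.1.1 e.1.2)]
    · show 1 - q I.1 ≤ 1
      linarith [hq0 I.1]
  let F : FT → Finset (PT n ⊕ FT) := fun I => (PP I.1).disjSum {I}
  have key := hJ (PT n ⊕ FT) p hp0 hp1 FT F
  refine le_trans ?_ (le_trans key ?_)
  · -- the probability
    let GP : SimpleGraph (Fin n) → Finset (PT n) := fun G => Finset.univ.filter (fun e => G.Adj e.1.1 e.1.2)
    let Φ : SimpleGraph (Fin n) × Finset FT → Finset (PT n ⊕ FT) := fun x => (GP x.1).disjSum x.2
    have hΦ : Function.Injective Φ := by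
      rintro ⟨G, T⟩ ⟨G', T'⟩ h
      have h1 : ∀ e, e ∈ GP G ↔ e ∈ GP G' := by
        intro e
        have : Sum.inl e ∈ Φ (G, T) ↔ Sum.inl e ∈ Φ (G', T') := by rw [h]
        simpa [Φ] using this
      have h2 : ∀ I, I ∈ T ↔ I ∈ T' := by
        intro I
        have : Sum.inr I ∈ Φ (G, T) ↔ Sum.inr I ∈ Φ (G', T') := by rw [h]
        simpa [Φ] using this
      have h3 : G = G' := by
        ext i j
        rcases lt_trichotomy i j with hij | hij | hij
        · simpa [GP] using h1 ⟨(i, j), hij⟩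
        · subst hij; simp
        · rw [G.adj_comm, G'.adj_comm]
          simpa [GP] using h1 ⟨(j, i), hij⟩
      rw [h3, Finset.ext h2]
    have hpw : ∀ x : SimpleGraph (Fin n) × Finset FT, pw p (Φ x) = wt a x.1 * pw (fun I : FT => 1 - q I.1) x.2 := by
      rintro ⟨G, T⟩
      unfold pw
      rw [Fintype.prod_sum_type]
      congr 1
      · unfold wt
        rw [prod_pairs (fun i j => if G.Adj i j then 1 - Real.exp (- a i j) else Real.exp (- a i j))]
        apply Finset.prod_congr rfl
        intro e _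
        have : (Sum.inl e ∈ Φ (G, T)) ↔ G.Adj e.1.1 e.1.2 := by simp [Φ, GP]
        simp only [this, p, Sum.elim_inl, sub_sub_cancel]
      · apply Finset.prod_congr rfl
        intro I _
        have : (Sum.inr I ∈ Φ (G, T)) ↔ I ∈ T := by simp [Φ]
        simp only [this, p, Sum.elim_inr]
    have hwt : ∀ G, 0 ≤ wt a G := by
      intro G
      unfold wt
      apply Finset.prod_nonneg
      intro i _
      apply Finset.prod_nonneg
      intro j _
      split_ifs
      · have : Real.exp (- a i j) ≤ 1 := Real.exp_le_one_iff.2 (by linarith [ha i j])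
        linarith
      · exact (Real.exp_pos _).le
      · exact zero_le_one
    have hpos : ∀ T : Finset (PT n ⊕ FT), 0 ≤ (if ∀ i, ¬ Disjoint T (F i) then pw p T else 0) := by
      intro T
      split_ifs
      · exact pw_nonneg p hp0 hp1 T
      · exact le_rfl
    have h1 : Pr a (fun G => ∀ I ∈ 𝓕, ¬ indep G I) =
        ∑ x : SimpleGraph (Fin n) × Finset FT, if ∀ I ∈ 𝓕, ¬ indep x.1 I then pw p (Φ x) else 0 := by
      unfold Pr
      rw [Fintype.sum_prod_type]
      apply Finset.sum_congr rfl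
      intro G _
      by_cases hG : ∀ I ∈ 𝓕, ¬ indep G I
      · rw [if_pos hG, Finset.sum_congr rfl (fun T2 _ => (if_pos hG).trans (hpw (G, T2)))]
        show wt a G = ∑ T2 : Finset FT, wt a G * pw (fun I : FT => 1 - q I.1) T2
        rw [← Finset.mul_sum, sum_pw, mul_one]
      · rw [if_neg hG, Finset.sum_eq_zero]
        intro T2 _
        exact if_neg hG
    rw [h1]
    have h2 : ∀ x : SimpleGraph (Fin n) × Finset FT, (if ∀ I ∈ 𝓕, ¬ indep x.1 I then pw p (Φ x) else 0)
        ≤ (fun T => if ∀ i, ¬ Disjoint T (F i) then pw p T else 0) (Φ x) := by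
      intro x
      by_cases hG : ∀ I ∈ 𝓕, ¬ indep x.1 I
      · have h3 : ∀ i, ¬ Disjoint (Φ x) (F i) := by
          intro I
          have h4 := hG I.1 I.2
          unfold indep at h4
          push Not at h4
          obtain ⟨i, hi, j, hj, hij⟩ := h4
          rw [Finset.not_disjoint_iff]
          rcases lt_trichotomy i j with h | h | h
          · refine ⟨Sum.inl ⟨(i, j), h⟩, ?_, ?_⟩
            · simp [Φ, GP, hij]
            · simp [F, PP, hi, hj]
          · subst h; exact absurd hij (x.1.loopless.irrefl i)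
          · refine ⟨Sum.inl ⟨(j, i), h⟩, ?_, ?_⟩
            · simp [Φ, GP, hij.symm]
            · simp [F, PP, hi, hj]
        exact le_of_eq ((if_pos hG).trans (if_pos h3).symm)
      · rw [if_neg hG]
        exact hpos _
    refine (Finset.sum_le_sum fun x _ => h2 x).trans ?_
    rw [← Finset.sum_image (f := fun T => if ∀ i, ¬ Disjoint T (F i) then pw p T else 0)
      (g := Φ) (s := Finset.univ) (fun x _ y _ h => hΦ h)]
    refine (Finset.sum_le_sum_of_subset_of_nonneg (Finset.subset_univ _) fun T _ _ => hpos T).trans (le_of_eq ?_)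
    apply Finset.sum_congr rfl
    intro T _
    congr
  · apply Real.exp_le_exp.2
    have hinl : ∀ e : PT n, 1 - p (Sum.inl e) = Real.exp (- a e.1.1 e.1.2) := fun e => by
      simp [p]
    have hinr : ∀ I : FT, 1 - p (Sum.inr I) = q I.1 := fun I => by simp [p]
    have hone : ∀ I : FT, ∏ e ∈ F I, (1 - p e) = q I.1 * Real.exp (- sm a I.1) := by
      intro I
      simp only [F]
      rw [Finset.prod_disjSum, Finset.prod_singleton, hinr]
      simp only [hinl]
      rw [← Real.exp_sum, Finset.sum_neg_distrib, ← sm_eq, mul_comm]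
    have h5 : ∑ I : FT, ∏ e ∈ F I, (1 - p e) = ∑ I ∈ 𝓕, q I * Real.exp (- sm a I) := by
      simp only [hone]
      exact (Finset.sum_subtype 𝓕 (fun _ => Iff.rfl) (fun I => q I * Real.exp (- sm a I))).symm
    rw [h5]
    have h6 : ∀ I J : FT, (if I ≠ J ∧ ¬ Disjoint (F I) (F J) then ∏ e ∈ F I ∪ F J, (1 - p e) else 0)
        ≤ if 2 ≤ (I.1 ∩ J.1).card then
          q I.1 * q J.1 * Real.exp (- sm a I.1 - sm a J.1 + sm a (I.1 ∩ J.1)) else 0 := by
      intro I J
      by_cases h : I ≠ J ∧ ¬ Disjoint (F I) (F J)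
      · have h7 : 2 ≤ (I.1 ∩ J.1).card := by
          obtain ⟨hne, hd⟩ := h
          rw [Finset.not_disjoint_iff] at hd
          obtain ⟨e, he1, he2⟩ := hd
          rcases e with e | K
          · simp only [F, Finset.inl_mem_disjSum, PP, Finset.mem_filter, Finset.mem_univ, true_and] at he1 he2
            have : 1 < (I.1 ∩ J.1).card := by
              rw [Finset.one_lt_card]
              exact ⟨e.1.1, Finset.mem_inter.2 ⟨he1.1, he2.1⟩, e.1.2, Finset.mem_inter.2 ⟨he1.2, he2.2⟩,
                ne_of_lt e.2⟩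
            omega
          · simp only [F, Finset.inr_mem_disjSum, Finset.mem_singleton] at he1 he2
            exact absurd (he1.symm.trans he2) hne
        rw [if_pos h, if_pos h7]
        have h8 : F I ∪ F J = (PP I.1 ∪ PP J.1).disjSum {I, J} := by
          ext e
          rcases e with e | K <;> simp [F]
        rw [h8, Finset.prod_disjSum, Finset.prod_pair h.1, hinr, hinr]
        simp only [hinl]
        rw [← Real.exp_sum, Finset.sum_neg_distrib, sum_union_pairs, mul_comm]
        apply le_of_eq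
        congr 2
        ring
      · rw [if_neg h]
        split_ifs
        · have := hq0 I.1
          have := hq0 J.1
          positivity
        · exact le_rfl
    have h9 : (∑ I : FT, ∑ J : FT, if 2 ≤ (I.1 ∩ J.1).card then
          q I.1 * q J.1 * Real.exp (- sm a I.1 - sm a J.1 + sm a (I.1 ∩ J.1)) else 0) =
        ∑ I ∈ 𝓕, ∑ J ∈ 𝓕, if 2 ≤ (I ∩ J).card then
          q I * q J * Real.exp (- sm a I - sm a J + sm a (I ∩ J)) else 0 := by
      rw [Finset.sum_subtype 𝓕 (fun _ => Iff.rfl) (fun I => ∑ J ∈ 𝓕, if 2 ≤ (I ∩ J).card then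
          q I * q J * Real.exp (- sm a I - sm a J + sm a (I ∩ J)) else 0)]
      apply Finset.sum_congr rfl
      intro I _
      exact (Finset.sum_subtype 𝓕 (fun _ => Iff.rfl) (fun J => if 2 ≤ (I.1 ∩ J).card then
          q I.1 * q J * Real.exp (- sm a I.1 - sm a J + sm a (I.1 ∩ J)) else 0)).symm
    have h10 : (∑ I : FT, ∑ J : FT,
        if I ≠ J ∧ ¬ Disjoint (F I) (F J) then ∏ e ∈ F I ∪ F J, (1 - p e) else 0) ≤
        ∑ I ∈ 𝓕, ∑ J ∈ 𝓕, if 2 ≤ (I ∩ J).card then
          q I * q J * Real.exp (- sm a I - sm a J + sm a (I ∩ J)) else 0 := by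
      rw [← h9]
      exact Finset.sum_le_sum fun I _ => Finset.sum_le_sum fun J _ => h6 I J
    have h11 : (∑ I : FT, ∑ J : FT,
        if I ≠ J ∧ ¬ Disjoint (F I) (F J) then ∏ e ∈ F I ∪ F J, (1 - p e) else 0) =
        (∑ I : FT, ∑ J : FT,
        @ite _ (I ≠ J ∧ ¬ Disjoint (F I) (F J)) (Classical.propDecidable _) (∏ e ∈ @Union.union _ (@Finset.instUnion _ (fun a b => Classical.propDecidable (a = b))) (F I) (F J), (1 - p e)) 0) := by
      apply Finset.sum_congr rfl
      intro I _
      apply Finset.sum_congr rfl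
      intro J _
      congr
      exact Subsingleton.elim _ _
    have h12 : (1 / 2 : ℝ) * (∑ I : FT, ∑ J : FT,
        @ite _ (I ≠ J ∧ ¬ Disjoint (F I) (F J)) (Classical.propDecidable _) (∏ e ∈ @Union.union _ (@Finset.instUnion _ (fun a b => Classical.propDecidable (a = b))) (F I) (F J), (1 - p e)) 0) ≤
        (1 / 2) * ∑ I ∈ 𝓕, ∑ J ∈ 𝓕, if 2 ≤ (I ∩ J).card then
          q I * q J * Real.exp (- sm a I - sm a J + sm a (I ∩ J)) else 0 := by
      rw [← h11]
      linarith
    convert add_le_add_right h12 (- ∑ I ∈ 𝓕, q I * Real.exp (- sm a I)) using 6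

end Pool.Agent.H378R3.CHIGJ
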