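import Pool.Agent.H958R4.Defs

/-! Task B1 (extraction of a cycle) for helper958's MP_5f0aae_co. -/

namespace Pool.Agent.H378R3.B1

open Equiv Finset Pool.Agent.H958R4
open scoped Classical

variable {m b : ℕ} [NeZero b]

/-- the pair `(e, t)` presents `(τ, u)` -/
def Pres (e : (ZMod b ⊕ Fin m) ≃ Fin (b + m)) (t : Perm (Fin m)) (τ : Perm (Fin (b + m)))
    (u : Fin (b + m)) : Prop :=
  e.permCongr (Equiv.sumCongr (rot b) t) = τ ∧ e (Sum.inl 0) = u

theorem rot_apply (j : ZMod b) : rot b j = j + 1 := rfl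

theorem Pres.step {e : (ZMod b ⊕ Fin m) ≃ Fin (b + m)} {t : Perm (Fin m)} {τ : Perm (Fin (b + m))}
    {u : Fin (b + m)} (h : Pres e t τ u) (j : ZMod b) :
    τ (e (Sum.inl j)) = e (Sum.inl (j + 1)) := by
  rw [← h.1, Equiv.permCongr_apply, Equiv.symm_apply_apply]
  rfl

theorem Pres.step_r {e : (ZMod b ⊕ Fin m) ≃ Fin (b + m)} {t : Perm (Fin m)}
    {τ : Perm (Fin (b + m))} {u : Fin (b + m)} (h : Pres e t τ u) (j : Fin m) :
    τ (e (Sum.inr j)) = e (Sum.inr (t j)) := by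
  rw [← h.1, Equiv.permCongr_apply, Equiv.symm_apply_apply]
  rfl

theorem Pres.iter {e : (ZMod b ⊕ Fin m) ≃ Fin (b + m)} {t : Perm (Fin m)} {τ : Perm (Fin (b + m))}
    {u : Fin (b + m)} (h : Pres e t τ u) (k : ℕ) :
    τ^[k] u = e (Sum.inl (k : ZMod b)) := by
  induction k with
  | zero => rw [Function.iterate_zero, id, Nat.cast_zero, h.2]
  | succ n ih => rw [Function.iterate_succ_apply', ih, h.step, Nat.cast_succ]

theorem Pres.inl {e : (ZMod b ⊕ Fin m) ≃ Fin (b + m)} {t : Perm (Fin m)} {τ : Perm (Fin (b + m))}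
    {u : Fin (b + m)} (h : Pres e t τ u) (j : ZMod b) :
    e (Sum.inl j) = τ^[j.val] u := by
  rw [h.iter, ZMod.natCast_zmod_val]

theorem Pres.minimalPeriod {e : (ZMod b ⊕ Fin m) ≃ Fin (b + m)} {t : Perm (Fin m)}
    {τ : Perm (Fin (b + m))} {u : Fin (b + m)} (h : Pres e t τ u) :
    Function.minimalPeriod τ u = b := by
  have hiff : ∀ k : ℕ, Function.IsPeriodicPt τ k u ↔ b ∣ k := by
    intro k
    unfold Function.IsPeriodicPt Function.IsFixedPt
    rw [h.iter]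
    conv_lhs => rw [← h.2]
    rw [e.injective.eq_iff, Sum.inl.injEq, ZMod.natCast_eq_zero_iff]
  apply Nat.dvd_antisymm
  · exact Function.IsPeriodicPt.minimalPeriod_dvd ((hiff b).2 dvd_rfl)
  · exact (hiff _).1 (Function.isPeriodicPt_minimalPeriod _ _)

theorem exists_pres (τ : Perm (Fin (b + m))) (u : Fin (b + m))
    (hu : Function.minimalPeriod τ u = b) :
    ∃ (e : (ZMod b ⊕ Fin m) ≃ Fin (b + m)) (t : Perm (Fin m)), Pres e t τ u := by
  let ι : ZMod b → Fin (b + m) := fun j => τ^[j.val] u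
  have hι : Function.Injective ι := by
    intro i j hij
    have h1 : i.val < Function.minimalPeriod τ u := by rw [hu]; exact ZMod.val_lt i
    have h2 : j.val < Function.minimalPeriod τ u := by rw [hu]; exact ZMod.val_lt j
    have := (Function.iterate_eq_iterate_iff_of_lt_minimalPeriod h1 h2).1 hij
    exact ZMod.val_injective b this
  have hstep : ∀ j, τ (ι j) = ι (j + 1) := by
    intro j
    show τ (τ^[j.val] u) = τ^[(j + 1).val] u
    have h0 : τ (τ^[j.val] u) = τ^[j.val + 1] u := (Function.iterate_succ_apply' τ j.val u).symm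
    rw [h0]
    have h1 : (j + 1).val = (j.val + 1) % b := by
      rw [ZMod.val_add]
      conv_rhs => rw [Nat.add_mod]
      congr 2
      · exact (Nat.mod_eq_of_lt (ZMod.val_lt j)).symm
      · exact ZMod.val_one_eq_one_mod b
    rw [h1]
    have h2 := Function.iterate_mod_minimalPeriod_eq (f := τ) (x := u) (n := j.val + 1)
    rw [hu] at h2
    exact h2.symm
  have hcard : Fintype.card {x // x ∉ Set.range ι} = m := by
    rw [Fintype.card_subtype_compl, Fintype.card_fin]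
    have : Fintype.card {x // x ∈ Set.range ι} = b := by
      have h1 := Fintype.card_congr (Equiv.ofInjective ι hι)
      rw [ZMod.card] at h1
      exact (Fintype.card_congr (Equiv.refl _)).trans h1.symm
    rw [this]
    omega
  let e2 : {x // x ∉ Set.range ι} ≃ Fin m := Fintype.equivFinOfCardEq hcard
  let e : (ZMod b ⊕ Fin m) ≃ Fin (b + m) :=
    (Equiv.sumCongr (Equiv.ofInjective ι hι) e2.symm).trans (Equiv.sumCompl (· ∈ Set.range ι))
  have he1 : ∀ j, e (Sum.inl j) = ι j := fun j => rfl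
  have he2 : ∀ j, e (Sum.inr j) ∉ Set.range ι := fun j => (e2.symm j).2
  have hmaps : Set.MapsTo (e.symm.permCongr τ) (Set.range Sum.inl) (Set.range Sum.inl) := by
    rintro _ ⟨a, rfl⟩
    rw [Equiv.permCongr_apply, Equiv.symm_symm, he1, hstep, ← he1, Equiv.symm_apply_apply]
    exact ⟨_, rfl⟩
  obtain ⟨⟨σ, t⟩, hσt⟩ := Equiv.Perm.mem_sumCongrHom_range_of_perm_mapsTo_inl hmaps
  have hσt' : Equiv.sumCongr σ t = e.symm.permCongr τ := hσt
  refine ⟨e, t, ?_, ?_⟩
  · have hσ : σ = rot b := by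
      ext1 j
      have h1 := congrArg (fun f : Perm (ZMod b ⊕ Fin m) => f (Sum.inl j)) hσt'
      simp only [Equiv.permCongr_apply, Equiv.symm_symm] at h1
      rw [he1, hstep, ← he1, Equiv.symm_apply_apply] at h1
      have h2 : (Equiv.sumCongr σ t) (Sum.inl j) = Sum.inl (σ j) := rfl
      rw [h2, Sum.inl.injEq] at h1
      rw [h1, rot_apply]
    rw [← hσ, hσt']
    ext x
    simp [Equiv.permCongr_apply]
  · rw [he1]
    show τ^[(0 : ZMod b).val] u = u
    rw [ZMod.val_zero]; rfl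

/-- relabelling the right part -/
def rel (π : Perm (Fin m)) (e : (ZMod b ⊕ Fin m) ≃ Fin (b + m)) :
    (ZMod b ⊕ Fin m) ≃ Fin (b + m) := (Equiv.sumCongr (1 : Perm (ZMod b)) π).trans e

theorem rel_inl (π : Perm (Fin m)) (e : (ZMod b ⊕ Fin m) ≃ Fin (b + m)) (j : ZMod b) :
    rel π e (Sum.inl j) = e (Sum.inl j) := rfl

theorem rel_inr (π : Perm (Fin m)) (e : (ZMod b ⊕ Fin m) ≃ Fin (b + m)) (j : Fin m) :
    rel π e (Sum.inr j) = e (Sum.inr (π j)) := rfl

theorem pres_iff {e : (ZMod b ⊕ Fin m) ≃ Fin (b + m)} {t : Perm (Fin m)} {τ : Perm (Fin (b + m))}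
    {u : Fin (b + m)} : Pres e t τ u ↔ (∀ j, τ (e (Sum.inl j)) = e (Sum.inl (j + 1))) ∧
      (∀ j, τ (e (Sum.inr j)) = e (Sum.inr (t j))) ∧ e (Sum.inl 0) = u := by
  constructor
  · intro h; exact ⟨h.step, h.step_r, h.2⟩
  · rintro ⟨h1, h2, h3⟩
    refine ⟨?_, h3⟩
    ext1 x
    obtain ⟨y, rfl⟩ := e.surjective x
    rw [Equiv.permCongr_apply, Equiv.symm_apply_apply]
    rcases y with j | j
    · rw [h1]; rfl
    · rw [h2]; rfl

theorem Pres.rel {e : (ZMod b ⊕ Fin m) ≃ Fin (b + m)} {t : Perm (Fin m)} {τ : Perm (Fin (b + m))}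
    {u : Fin (b + m)} (h : Pres e t τ u) (π : Perm (Fin m)) :
    Pres (rel π e) (π⁻¹ * t * π) τ u := by
  rw [pres_iff] at h ⊢
  refine ⟨fun j => h.1 j, fun j => ?_, h.2.2⟩
  rw [rel_inr, rel_inr, h.2.1]
  simp

theorem Pres.exists_rel {e e' : (ZMod b ⊕ Fin m) ≃ Fin (b + m)} {t t' : Perm (Fin m)}
    {τ : Perm (Fin (b + m))} {u : Fin (b + m)} (h : Pres e t τ u) (h' : Pres e' t' τ u) :
    ∃ π : Perm (Fin m), B1.rel π e = e' ∧ π⁻¹ * t * π = t' := by
  have h1 : ∀ j, e (Sum.inl j) = e' (Sum.inl j) := fun j => by rw [h.inl, h'.inl]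
  have hmaps : Set.MapsTo (e'.trans e.symm) (Set.range Sum.inl) (Set.range Sum.inl) := by
    rintro _ ⟨a, rfl⟩
    refine ⟨a, ?_⟩
    rw [Equiv.trans_apply, ← h1, Equiv.symm_apply_apply]
  obtain ⟨⟨σ, π⟩, hσπ⟩ := Equiv.Perm.mem_sumCongrHom_range_of_perm_mapsTo_inl
    (σ := (e'.trans e.symm : Perm (ZMod b ⊕ Fin m))) hmaps
  have hσπ' : Equiv.sumCongr σ π = e'.trans e.symm := hσπ
  have hr : ∀ j, e (Sum.inr (π j)) = e' (Sum.inr j) := by
    intro j
    have h2 := congrArg (fun f : (ZMod b ⊕ Fin m) ≃ (ZMod b ⊕ Fin m) => f (Sum.inr j)) hσπ'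
    simp only [Equiv.trans_apply] at h2
    rw [Equiv.eq_symm_apply] at h2
    exact h2
  have he : B1.rel π e = e' := by
    ext1 x
    rcases x with j | j
    · rw [rel_inl, h1]
    · rw [rel_inr, hr]
  refine ⟨π, he, ?_⟩
  have h3 := (h.rel π).step_r
  rw [he] at h3
  ext1 j
  have h4 := h3 j
  rw [h'.step_r, e'.injective.eq_iff, Sum.inr.injEq] at h4
  exact h4.symm

theorem rel_injective {e : (ZMod b ⊕ Fin m) ≃ Fin (b + m)} {π π' : Perm (Fin m)}
    (h : rel π e = rel π' e) : π = π' := by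
  ext1 j
  have h1 := congrArg (fun f : (ZMod b ⊕ Fin m) ≃ Fin (b + m) => f (Sum.inr j)) h
  simp only [rel_inr] at h1
  rwa [e.injective.eq_iff, Sum.inr.injEq] at h1

theorem taskCycleExtract : TaskCycleExtract := by
  intro F hF m b _
  set S : Finset (Perm (Fin (b + m)) × Fin (b + m)) :=
    univ.filter (fun x => Function.minimalPeriod x.1 x.2 = b) with hS
  have hex : ∀ x : Perm (Fin (b + m)) × Fin (b + m), x ∈ S →
      ∃ (z : ((ZMod b ⊕ Fin m) ≃ Fin (b + m)) × Perm (Fin m)), Pres z.1 z.2 x.1 x.2 := by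
    intro x hx
    obtain ⟨e, t, h⟩ := exists_pres x.1 x.2 (mem_filter.1 hx).2
    exact ⟨(e, t), h⟩
  choose z hz using hex
  have hL : (m.factorial : Polynomial ℚ) * ∑ τ : Perm (Fin (b + m)),
        ∑ u ∈ univ.filter (fun u => Function.minimalPeriod τ u = b), F (Fin (b + m)) τ u
      = ∑ y ∈ S.attach ×ˢ (univ : Finset (Perm (Fin m))), F (Fin (b + m)) y.1.1.1 y.1.1.2 := by
    rw [sum_product]
    simp only [sum_const, nsmul_eq_mul]
    rw [← mul_sum, card_univ, Fintype.card_perm, Fintype.card_fin]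
    congr 1
    rw [sum_attach S (fun x => F (Fin (b + m)) x.1 x.2), hS, sum_filter, ← univ_product_univ,
      sum_product]
    refine sum_congr rfl fun τ _ => ?_
    rw [sum_filter]
  have hR : ((b + m).factorial : Polynomial ℚ) * ∑ τ : Perm (Fin m),
        F (ZMod b ⊕ Fin m) (Equiv.sumCongr (rot b) τ) (Sum.inl 0)
      = ∑ y : ((ZMod b ⊕ Fin m) ≃ Fin (b + m)) × Perm (Fin m),
        F (ZMod b ⊕ Fin m) (Equiv.sumCongr (rot b) y.2) (Sum.inl 0) := by
    rw [← univ_product_univ, sum_product]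
    simp only [sum_const, nsmul_eq_mul]
    congr 1
    have e0 : (ZMod b ⊕ Fin m) ≃ Fin (b + m) := Fintype.equivOfCardEq (by simp [ZMod.card])
    rw [card_univ, Fintype.card_equiv e0]
    simp [ZMod.card]
  rw [hL, hR]
  refine sum_bij (fun y _ => (rel y.2 (z y.1.1 y.1.2).1, y.2⁻¹ * (z y.1.1 y.1.2).2 * y.2))
    ?_ ?_ ?_ ?_
  · intro y _; exact mem_univ _
  · rintro ⟨⟨x, hx⟩, π⟩ _ ⟨⟨x', hx'⟩, π'⟩ _ h
    simp only [Prod.mk.injEq] at h
    have h1 := (hz x hx).rel π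
    have h2 := (hz x' hx').rel π'
    rw [← h.1, ← h.2] at h2
    have hxx : x = x' := by
      apply Prod.ext
      · rw [← h1.1, ← h2.1]
      · rw [← h1.2, ← h2.2]
    subst hxx
    have := rel_injective h.1
    rw [this]
  · rintro ⟨e, t⟩ _
    have hp : Pres e t (e.permCongr (Equiv.sumCongr (rot b) t)) (e (Sum.inl 0)) := ⟨rfl, rfl⟩
    have hx : (e.permCongr (Equiv.sumCongr (rot b) t), e (Sum.inl 0)) ∈ S :=
      mem_filter.2 ⟨mem_univ _, hp.minimalPeriod⟩
    obtain ⟨π, h1, h2⟩ := (hz _ hx).exists_rel hp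
    exact ⟨(⟨_, hx⟩, π), by simp, by rw [Prod.mk.injEq]; exact ⟨h1, h2⟩⟩
  · rintro ⟨⟨x, hx⟩, π⟩ _
    have h1 := (hz x hx).rel π
    have h2 := hF _ _ (rel π (z x hx).1) (Equiv.sumCongr (rot b) (π⁻¹ * (z x hx).2 * π)) (Sum.inl 0)
    rw [h1.1, h1.2] at h2
    exact h2

end Pool.Agent.H378R3.B1
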