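import Pool.Agent.H958R4.Defs

/-! Task B2 (splitting of permutations along an invariant set) for helper958's MP_5f0aae_co. -/

namespace Pool.Agent.H378R3.B2

open Equiv Finset Pool.Agent.H958R4
open scoped Classical

/-- the standard right half -/
noncomputable def RR (n k : ℕ) : Finset (Fin n ⊕ Fin k) :=
  (univ : Finset (Fin k)).map ⟨Sum.inr, Sum.inr_injective⟩

theorem mem_RR {n k : ℕ} {x : Fin n ⊕ Fin k} : x ∈ RR n k ↔ x.isRight = true := by
  unfold RR
  rw [mem_map]
  constructor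
  · rintro ⟨a, _, rfl⟩; rfl
  · intro h
    obtain ⟨a, rfl⟩ := Sum.isRight_iff.1 h
    exact ⟨a, mem_univ _, rfl⟩

/-- an adapted enumeration -/
theorem exists_enum {p n : ℕ} (hn : n ≤ p) (Y : Finset (Fin p)) (hY : Y.card = p - n) :
    ∃ e : (Fin n ⊕ Fin (p - n)) ≃ Fin p, ∀ x, x ∈ RR n (p - n) ↔ e x ∈ Y := by
  have h2 : Fintype.card {a // a ∉ Y} = n := by
    rw [Fintype.card_subtype_compl, Fintype.card_fin, Fintype.card_coe, hY]
    omega
  let e1 : Y ≃ Fin (p - n) := Y.equivFinOfCardEq hY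
  let e2 : {a // a ∉ Y} ≃ Fin n := Fintype.equivFinOfCardEq h2
  refine ⟨(Equiv.sumComm _ _).trans
    ((Equiv.sumCongr e1.symm e2.symm).trans (Equiv.sumCompl (· ∈ Y))), ?_⟩
  intro x
  rw [mem_RR]
  rcases x with a | b
  · simp only [Sum.isRight_inl, Bool.false_eq_true, false_iff]
    exact (e2.symm a).2
  · simp only [Sum.isRight_inr, true_iff]
    exact (e1.symm b).2

theorem key (F : ∀ (V : Type) [Fintype V], Perm V → Finset V → Polynomial ℚ)
    (hF : ∀ (V V' : Type) [Fintype V] [Fintype V'] (e : V ≃ V') (α : Perm V) (Y : Finset V),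
       F V' (e.permCongr α) (Y.map e.toEmbedding) = F V α Y)
    {p n : ℕ} (hn : n ≤ p) (Y : Finset (Fin p)) (hY : Y.card = p - n) :
    ∑ α ∈ univ.filter (fun α : Perm (Fin p) => Inv α Y), F (Fin p) α Y
      = ∑ σ : Perm (Fin n), ∑ τ : Perm (Fin (p - n)),
         F (Fin n ⊕ Fin (p - n)) (Equiv.sumCongr σ τ) (RR n (p - n)) := by
  obtain ⟨e, he⟩ := exists_enum hn Y hY
  have hYe : (RR n (p - n)).map e.toEmbedding = Y := by
    ext v
    rw [mem_map_equiv, he, Equiv.apply_symm_apply]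
  rw [← Fintype.sum_prod_type'
    (f := fun σ τ => F (Fin n ⊕ Fin (p - n)) (Equiv.sumCongr σ τ) (RR n (p - n)))]
  symm
  refine sum_bij (fun x _ => e.permCongr (Equiv.sumCongr x.1 x.2)) ?_ ?_ ?_ ?_
  · rintro ⟨σ, τ⟩ _
    rw [mem_filter]
    refine ⟨mem_univ _, ?_⟩
    intro v
    obtain ⟨x, rfl⟩ := e.surjective v
    rw [Equiv.permCongr_apply, Equiv.symm_apply_apply, ← he, ← he, mem_RR, mem_RR]
    rcases x with a | b <;> simp
  · rintro ⟨σ, τ⟩ _ ⟨σ', τ'⟩ _ h
    have h1 : Equiv.sumCongr σ τ = Equiv.sumCongr σ' τ' := e.permCongr.injective h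
    have h2 := Equiv.Perm.sumCongrHom_injective (α := Fin n) (β := Fin (p - n)) (a₁ := (σ, τ))
      (a₂ := (σ', τ')) h1
    exact h2
  · intro α hα
    rw [mem_filter] at hα
    have hInv := hα.2
    have hmaps : Set.MapsTo (e.symm.permCongr α) (Set.range Sum.inl) (Set.range Sum.inl) := by
      rintro _ ⟨a, rfl⟩
      have h1 : e (Sum.inl a) ∉ Y := by
        rw [← he, mem_RR]; simp
      have h2 : α (e (Sum.inl a)) ∉ Y := fun h => h1 ((hInv _).2 h)
      have h3 : (e.symm (α (e (Sum.inl a)))) ∉ RR n (p - n) := by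
        rw [he, Equiv.apply_symm_apply]; exact h2
      rw [mem_RR] at h3
      rw [Equiv.permCongr_apply, Equiv.symm_symm]
      rcases hx : e.symm (α (e (Sum.inl a))) with y | y
      · exact ⟨y, rfl⟩
      · rw [hx] at h3; simp at h3
    obtain ⟨⟨σ, τ⟩, hστ⟩ := Equiv.Perm.mem_sumCongrHom_range_of_perm_mapsTo_inl hmaps
    refine ⟨(σ, τ), mem_univ _, ?_⟩
    have : Equiv.sumCongr σ τ = e.symm.permCongr α := hστ
    show e.permCongr (Equiv.sumCongr σ τ) = α
    rw [this]
    ext x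
    simp [Equiv.permCongr_apply]
  · rintro ⟨σ, τ⟩ _
    rw [← hF _ _ e (Equiv.sumCongr σ τ) (RR n (p - n)), hYe]

theorem taskSplit : TaskSplit := by
  intro F hF p
  have h0 : ∑ α : Perm (Fin p), ∑ Y ∈ univ.filter (fun Y : Finset (Fin p) => Inv α Y), F (Fin p) α Y
      = ∑ Y : Finset (Fin p), ∑ α ∈ univ.filter (fun α : Perm (Fin p) => Inv α Y), F (Fin p) α Y := by
    refine sum_comm' ?_
    intro α Y
    simp
  rw [h0]
  have hmap : ∀ Y ∈ (univ : Finset (Finset (Fin p))), p - Y.card ∈ range (p + 1) := by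
    intro Y _
    rw [mem_range]; omega
  rw [← sum_fiberwise_of_maps_to hmap]
  refine sum_congr rfl ?_
  intro n hn
  rw [mem_range] at hn
  have hcard : ∀ Y : Finset (Fin p), p - Y.card = n ↔ Y.card = p - n := by
    intro Y
    have := card_finset_fin_le Y
    omega
  have h1 : ∀ Y ∈ (univ : Finset (Finset (Fin p))).filter (fun Y => p - Y.card = n),
      ∑ α ∈ univ.filter (fun α : Perm (Fin p) => Inv α Y), F (Fin p) α Y
      = ∑ σ : Perm (Fin n), ∑ τ : Perm (Fin (p - n)),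
         F (Fin n ⊕ Fin (p - n)) (Equiv.sumCongr σ τ) (RR n (p - n)) := by
    intro Y hY
    rw [mem_filter] at hY
    exact key F hF (by omega) Y ((hcard Y).1 hY.2)
  rw [sum_congr rfl h1, sum_const, nsmul_eq_mul]
  congr 1
  norm_cast
  have h2 : (univ : Finset (Finset (Fin p))).filter (fun Y => p - Y.card = n)
      = powersetCard (p - n) (univ : Finset (Fin p)) := by
    ext Y
    rw [mem_filter, mem_powersetCard, hcard]
    simp
  rw [h2, card_powersetCard, card_univ, Fintype.card_fin]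
  exact Nat.choose_symm (by omega)

end Pool.Agent.H378R3.B2
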