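import Pool.Agent.H958R4.Defs

/-! Task C1 (Burnside) for helper958's MP_5f0aae_co. -/

namespace Pool.Agent.H378R3.C1

open Equiv Finset Pool.Agent.H958R4
open scoped Classical

variable {p q : ℕ}

/-- good line sets -/
def Good (p q : ℕ) (E : Finset (Sym2 (Fin p))) : Prop :=
  (∀ e ∈ E, ¬ e.IsDiag) ∧ E.card = q ∧ ∀ v, deg E v ≠ 2

abbrev X (p q : ℕ) := {E : Finset (Sym2 (Fin p)) // Good p q E}

theorem mem_InvE {V : Type} [Fintype V] {α : Perm V} {E : Finset (Sym2 V)} :
    E ∈ InvE α ↔ (∀ e ∈ E, ¬ e.IsDiag) ∧ (∀ e, e ∈ E ↔ Sym2.map α e ∈ E) := by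
  unfold InvE
  rw [mem_filter]
  exact ⟨fun h => h.2, fun h => ⟨mem_univ _, h⟩⟩

theorem deg_ncard {V : Type} (E : Finset (Sym2 V)) (v : V) :
    deg E v = ({e | e ∈ E ∧ v ∈ e} : Set (Sym2 V)).ncard := by
  unfold deg
  rw [← Set.ncard_coe_finset]
  congr 1
  ext e
  simp

theorem map_inj (σ : Perm (Fin p)) : Function.Injective (Sym2.map σ) :=
  Sym2.map.injective σ.injective

theorem mem_map_iff {σ : Perm (Fin p)} {e : Sym2 (Fin p)} {v : Fin p} :
    v ∈ Sym2.map σ e ↔ σ⁻¹ v ∈ e := by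
  rw [Sym2.mem_map]
  constructor
  · rintro ⟨a, ha, rfl⟩; simpa using ha
  · intro h; exact ⟨_, h, by simp⟩

theorem good_image {σ : Perm (Fin p)} {E : Finset (Sym2 (Fin p))} (h : Good p q E) :
    Good p q (E.image (Sym2.map σ)) := by
  refine ⟨?_, ?_, ?_⟩
  · intro e he
    obtain ⟨f, hf, rfl⟩ := mem_image.1 he
    rw [Sym2.isDiag_map σ.injective]
    exact h.1 f hf
  · rw [card_image_of_injective _ (map_inj σ)]; exact h.2.1
  · intro v
    have : deg (E.image (Sym2.map σ)) v = deg E (σ⁻¹ v) := by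
      have hs : ({e | e ∈ E.image (Sym2.map σ) ∧ v ∈ e} : Set (Sym2 (Fin p)))
          = Sym2.map σ '' {e | e ∈ E ∧ σ⁻¹ v ∈ e} := by
       ext e
       simp only [Set.mem_ofPred_eq, Set.mem_image, mem_image]
       constructor
       · rintro ⟨⟨f, hf, rfl⟩, hv⟩
         exact ⟨f, ⟨hf, mem_map_iff.1 hv⟩, rfl⟩
       · rintro ⟨f, ⟨hf, hv⟩, rfl⟩
         exact ⟨⟨f, hf, rfl⟩, mem_map_iff.2 hv⟩
      rw [deg_ncard, deg_ncard, hs, Set.ncard_image_of_injective _ (map_inj σ)]
    rw [this]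
    exact h.2.2 _

instance : MulAction (Perm (Fin p)) (X p q) where
  smul σ E := ⟨E.1.image (Sym2.map σ), good_image E.2⟩
  one_smul E := by
    apply Subtype.ext
    show E.1.image (Sym2.map ((1 : Perm (Fin p)) : Fin p → Fin p)) = E.1
    rw [Perm.coe_one, Sym2.map_id]
    exact image_id
  mul_smul σ τ E := by
    apply Subtype.ext
    show E.1.image (Sym2.map ((σ * τ : Perm (Fin p)) : Fin p → Fin p))
      = (E.1.image (Sym2.map τ)).image (Sym2.map σ)
    rw [image_image, Perm.coe_mul, Sym2.map_comp]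

theorem smul_val (σ : Perm (Fin p)) (E : X p q) : (σ • E).1 = E.1.image (Sym2.map σ) := rfl

theorem fix_iff {σ : Perm (Fin p)} {E : Finset (Sym2 (Fin p))} :
    E.image (Sym2.map σ) = E ↔ ∀ e, e ∈ E ↔ Sym2.map σ e ∈ E := by
  constructor
  · intro h e
    constructor
    · intro he
      rw [← h]
      exact mem_image_of_mem _ he
    · intro he
      rw [← h] at he
      obtain ⟨f, hf, hfe⟩ := mem_image.1 he
      rwa [map_inj σ hfe] at hf
  · intro h
    ext x
    rw [mem_image]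
    constructor
    · rintro ⟨f, hf, rfl⟩
      exact (h f).1 hf
    · intro hx
      refine ⟨Sym2.map (σ⁻¹ : Perm (Fin p)) x, ?_, ?_⟩
      · rw [h, Sym2.map_map]
        simpa [← Perm.coe_mul] using hx
      · rw [Sym2.map_map]
        simp [← Perm.coe_mul]

theorem card_fixedBy (σ : Perm (Fin p)) :
    Nat.card (MulAction.fixedBy (X p q) σ)
      = ((InvE σ).filter fun E => E.card = q ∧ ∀ v, deg E v ≠ 2).card := by
  rw [← Set.ncard_coe_finset, Nat.card_coe_set_eq,
    ← Set.ncard_image_of_injective _ Subtype.val_injective]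
  congr 1
  ext E
  rw [Set.mem_image, mem_coe, mem_filter]
  constructor
  · rintro ⟨x, hx, rfl⟩
    rw [MulAction.mem_fixedBy] at hx
    have h3 : x.1.image (Sym2.map σ) = x.1 := by rw [← smul_val, hx]
    refine ⟨?_, x.2.2⟩
    rw [mem_InvE]
    exact ⟨x.2.1, fix_iff.1 h3⟩
  · rintro ⟨h1, h2⟩
    rw [mem_InvE] at h1
    refine ⟨⟨E, h1.1, h2⟩, ?_, rfl⟩
    rw [MulAction.mem_fixedBy]
    apply Subtype.ext
    rw [smul_val]
    exact fix_iff.2 h1.2

theorem deg_eq (G : SimpleGraph (Fin p)) (E : Finset (Sym2 (Fin p)))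
    (hE : ∀ e, e ∈ E ↔ e ∈ G.edgeSet) (v : Fin p) :
    deg E v = (G.neighborSet v).ncard := by
  rw [← Nat.card_coe_set_eq, ← Nat.card_congr (G.incidenceSetEquivNeighborSet v),
    Nat.card_coe_set_eq, deg_ncard]
  congr 1
  ext e
  simp [SimpleGraph.incidenceSet, hE]

/-- the graph as a line set -/
noncomputable def phi (p q : ℕ) : {G : SimpleGraph (Fin p) // Irr G ∧ G.edgeSet.ncard = q} ≃ X p q where
  toFun G := ⟨(Set.toFinite G.1.edgeSet).toFinset, by
    refine ⟨?_, ?_, ?_⟩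
    · intro e he
      rw [Set.Finite.mem_toFinset] at he
      exact G.1.not_isDiag_of_mem_edgeSet he
    · rw [← Set.ncard_eq_toFinset_card]
      exact G.2.2
    · intro v
      rw [deg_eq G.1 _ (fun e => Set.Finite.mem_toFinset _)]
      exact G.2.1 v⟩
  invFun E := ⟨SimpleGraph.fromEdgeSet (E.1 : Set (Sym2 (Fin p))), by
    have h0 : (SimpleGraph.fromEdgeSet (E.1 : Set (Sym2 (Fin p)))).edgeSet = (E.1 : Set _) := by
      rw [SimpleGraph.edgeSet_fromEdgeSet]
      ext e
      simp only [Set.mem_sdiff, mem_coe, Set.mem_ofPred_eq]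
      exact ⟨fun h => h.1, fun h => ⟨h, E.2.1 e h⟩⟩
    refine ⟨?_, ?_⟩
    · intro v
      rw [← deg_eq _ E.1 (fun e => by rw [h0, mem_coe])]
      exact E.2.2.2 v
    · rw [h0, Set.ncard_coe_finset]
      exact E.2.2.1⟩
  left_inv G := by
    apply Subtype.ext
    show SimpleGraph.fromEdgeSet (((Set.toFinite G.1.edgeSet).toFinset : Finset (Sym2 (Fin p))) : Set (Sym2 (Fin p))) = G.1
    rw [Set.Finite.coe_toFinset, SimpleGraph.fromEdgeSet_edgeSet]
  right_inv E := by
    apply Subtype.ext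
    ext e
    change e ∈ Set.Finite.toFinset _ ↔ _
    rw [Set.Finite.mem_toFinset, SimpleGraph.edgeSet_fromEdgeSet]
    simp only [Set.mem_sdiff, mem_coe, Set.mem_ofPred_eq]
    exact ⟨fun h => h.1, fun h => ⟨h, E.2.1 e h⟩⟩

theorem mem_phi (G : {G : SimpleGraph (Fin p) // Irr G ∧ G.edgeSet.ncard = q}) (e : Sym2 (Fin p)) :
    e ∈ (phi p q G).1 ↔ e ∈ G.1.edgeSet := by
  show e ∈ (Set.toFinite G.1.edgeSet).toFinset ↔ _
  rw [Set.Finite.mem_toFinset]

theorem rel_iff (G H : {G : SimpleGraph (Fin p) // Irr G ∧ G.edgeSet.ncard = q}) :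
    (isoSetoid p q).r G H ↔
      (MulAction.orbitRel (Perm (Fin p)) (X p q)).r (phi p q G) (phi p q H) := by
  constructor
  · rintro ⟨f⟩
    show phi p q G ∈ MulAction.orbit (Perm (Fin p)) (phi p q H)
    refine ⟨(f.toEquiv.symm : Perm (Fin p)), ?_⟩
    apply Subtype.ext
    show ((f.toEquiv.symm : Perm (Fin p)) • phi p q H).1 = (phi p q G).1
    rw [smul_val]
    ext e
    induction e using Sym2.ind with
    | _ a b =>
      rw [mem_image, mem_phi, SimpleGraph.mem_edgeSet]
      constructor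
      · rintro ⟨e', he', hee⟩
        induction e' using Sym2.ind with
        | _ c d =>
          rw [mem_phi, SimpleGraph.mem_edgeSet] at he'
          rw [← SimpleGraph.mem_edgeSet, ← hee, Sym2.map_mk, SimpleGraph.mem_edgeSet]
          have := f.symm.map_adj_iff.2 he'
          exact this
      · intro hab
        refine ⟨s(f a, f b), ?_, ?_⟩
        · rw [mem_phi, SimpleGraph.mem_edgeSet]
          exact f.map_adj_iff.2 hab
        · rw [Sym2.map_mk]
          show s(f.toEquiv.symm (f a), f.toEquiv.symm (f b)) = s(a, b)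
          have h1 : f.toEquiv.symm (f a) = a := f.toEquiv.symm_apply_apply a
          have h2 : f.toEquiv.symm (f b) = b := f.toEquiv.symm_apply_apply b
          rw [h1, h2]
  · rintro ⟨σ, hσ⟩
    have hσ' : (phi p q G).1 = (phi p q H).1.image (Sym2.map σ) := by
      rw [← smul_val]
      exact congrArg Subtype.val hσ.symm
    refine ⟨⟨(σ⁻¹ : Perm (Fin p)), ?_⟩⟩
    intro a b
    rw [← SimpleGraph.mem_edgeSet, ← SimpleGraph.mem_edgeSet, ← mem_phi, ← mem_phi, hσ',
      mem_image]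
    constructor
    · intro h
      exact ⟨_, h, by simp [Sym2.map_mk]⟩
    · rintro ⟨e, he, hee⟩
      have : e = s(σ⁻¹ a, σ⁻¹ b) := by
        apply map_inj σ
        rw [hee]
        simp
      rw [← this]; exact he

theorem taskBurnside : TaskBurnside := by
  intro p q
  have h1 : h p q = Fintype.card (Quotient (MulAction.orbitRel (Perm (Fin p)) (X p q))) := by
    unfold h
    rw [← Nat.card_eq_fintype_card]
    exact Nat.card_congr (Quotient.congr (phi p q) rel_iff)
  have h2 := MulAction.sum_card_fixedBy_eq_card_orbits_mul_card_group (Perm (Fin p)) (X p q)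
  rw [h1]
  rw [Fintype.card_perm, Fintype.card_fin] at h2
  have h3 : ∑ α : Perm (Fin p),
    (((InvE α).filter fun E => E.card = q ∧ ∀ v, deg E v ≠ 2).card : ℚ)
      = ((∑ α : Perm (Fin p), Fintype.card (MulAction.fixedBy (X p q) α) : ℕ) : ℚ) := by
    push_cast
    exact sum_congr rfl fun α _ => by rw [← card_fixedBy, Nat.card_eq_fintype_card]
  rw [h3, h2]
  push_cast
  ring

end Pool.Agent.H378R3.C1
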