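import Pool.Agent.H958R4.Defs

/-! Tasks C2 (sieve) and C3 (Polya term) for helper958's MP_5f0aae_co. -/

namespace Pool.Agent.H378R3.C23

open Equiv Finset Pool.Agent.H958R4
open scoped Classical

variable {V : Type}

theorem inv_zpow {α : Perm V} {Y : Finset V} (h : Inv α Y) (v : V) (i : ℤ) :
    v ∈ Y ↔ (α ^ i) v ∈ Y := by
  induction i using Int.induction_on generalizing v with
  | zero => simp
  | succ n ih =>
    rw [zpow_add, zpow_one, Perm.mul_apply, ← ih (α v)]
    exact h v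
  | pred n ih =>
    rw [zpow_sub, zpow_one, Perm.mul_apply, ← ih (α⁻¹ v)]
    have := h (α⁻¹ v)
    simpa using this.symm

theorem inv_sameCycle {α : Perm V} {Y : Finset V} (h : Inv α Y) {v w : V}
    (hs : α.SameCycle v w) : v ∈ Y ↔ w ∈ Y := by
  obtain ⟨i, rfl⟩ := hs
  exact inv_zpow h v i

/-- the cycle of `v` -/
noncomputable def cyc [Fintype V] (α : Perm V) (v : V) : Finset V :=
  univ.filter fun w => α.SameCycle v w

theorem mem_cyc [Fintype V] {α : Perm V} {v w : V} : w ∈ cyc α v ↔ α.SameCycle v w := by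
  simp [cyc]

theorem ncyc_eq [Fintype V] (α : Perm V) (Y : Finset V) : ncyc α Y = (Y.image (cyc α)).card := rfl

theorem cyc_eq [Fintype V] {α : Perm V} {v w : V} (h : α.SameCycle v w) : cyc α w = cyc α v := by
  ext x
  rw [mem_cyc, mem_cyc]
  exact ⟨fun hx => h.trans hx, fun hx => h.symm.trans hx⟩

theorem inv_cyc [Fintype V] (α : Perm V) (d : V) : Inv α (cyc α d) := by
  intro v
  rw [mem_cyc, mem_cyc]
  exact Perm.sameCycle_apply_right.symm

theorem ncyc_union [Fintype V] {α : Perm V} {Y : Finset V} (h : Inv α Y) {d : V} (hd : d ∉ Y) :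
    ncyc α (Y ∪ cyc α d) = ncyc α Y + 1 := by
  rw [ncyc_eq, ncyc_eq]
  have h1 : (Y ∪ cyc α d).image (cyc α) = insert (cyc α d) (Y.image (cyc α)) := by
    ext O
    simp only [mem_image, mem_union, mem_insert]
    constructor
    · rintro ⟨v, hv | hv, rfl⟩
      · exact Or.inr ⟨v, hv, rfl⟩
      · exact Or.inl (cyc_eq (mem_cyc.1 hv))
    · rintro (rfl | ⟨v, hv, rfl⟩)
      · exact ⟨d, Or.inr (mem_cyc.2 (Perm.SameCycle.refl _ _)), rfl⟩
      · exact ⟨v, Or.inl hv, rfl⟩
  rw [h1, card_insert_of_notMem]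
  intro hm
  obtain ⟨v, hv, hve⟩ := mem_image.1 hm
  have : v ∈ cyc α d := by
    rw [← hve]; exact mem_cyc.2 (Perm.SameCycle.refl _ _)
  exact hd ((inv_sameCycle h (mem_cyc.1 this)).2 hv)

/-- the toggle of the cycle of `d` -/
noncomputable def tog [Fintype V] (α : Perm V) (d : V) (Y : Finset V) : Finset V :=
  if d ∈ Y then Y \ cyc α d else Y ∪ cyc α d

theorem d_mem_cyc [Fintype V] (α : Perm V) (d : V) : d ∈ cyc α d :=
  mem_cyc.2 (Perm.SameCycle.refl _ _)

theorem cyc_subset [Fintype V] {α : Perm V} {Y : Finset V} (h : Inv α Y) {d : V} (hd : d ∈ Y) :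
    cyc α d ⊆ Y := fun _ hx => (inv_sameCycle h (mem_cyc.1 hx)).1 hd

theorem inv_tog [Fintype V] {α : Perm V} {Y : Finset V} (h : Inv α Y) (d : V) :
    Inv α (tog α d Y) := by
  intro v
  unfold tog
  have h1 := h v
  have h2 := inv_cyc α d v
  split_ifs
  · rw [mem_sdiff, mem_sdiff, h1, h2]
  · rw [mem_union, mem_union, h1, h2]

theorem tog_tog [Fintype V] {α : Perm V} {Y : Finset V} (h : Inv α Y) (d : V) :
    tog α d (tog α d Y) = Y := by
  by_cases hd : d ∈ Y
  · have h1 : tog α d Y = Y \ cyc α d := if_pos hd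
    have h2 : d ∉ Y \ cyc α d := by simp [d_mem_cyc]
    rw [h1, tog, if_neg h2]
    exact sdiff_union_of_subset (cyc_subset h hd)
  · have h1 : tog α d Y = Y ∪ cyc α d := if_neg hd
    have h2 : d ∈ Y ∪ cyc α d := by simp [d_mem_cyc]
    rw [h1, tog, if_pos h2]
    have hdis : Disjoint Y (cyc α d) := by
      rw [disjoint_left]
      intro x hx hx'
      exact hd ((inv_sameCycle h (mem_cyc.1 hx')).2 hx)
    rw [union_sdiff_right]
    exact sdiff_eq_self_of_disjoint hdis

theorem ncyc_tog [Fintype V] {α : Perm V} {Y : Finset V} (h : Inv α Y) (d : V) :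
    (-1 : Polynomial ℚ) ^ ncyc α Y + (-1) ^ ncyc α (tog α d Y) = 0 := by
  by_cases hd : d ∈ Y
  · have h1 : tog α d Y = Y \ cyc α d := if_pos hd
    have h2 : d ∉ Y \ cyc α d := by simp [d_mem_cyc]
    have h3 : Inv α (Y \ cyc α d) := by rw [← h1]; exact inv_tog h d
    have h4 := ncyc_union h3 h2
    rw [sdiff_union_of_subset (cyc_subset h hd)] at h4
    rw [h1, h4, pow_succ]; ring
  · have h1 : tog α d Y = Y ∪ cyc α d := if_neg hd
    rw [h1, ncyc_union h hd, pow_succ]; ring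

theorem taskSieve : TaskSieve := by
  intro V _ α D hD
  split_ifs with h0
  · subst h0
    have : (univ.filter (fun Y : Finset V => Y ⊆ (∅ : Finset V) ∧ Inv α Y)) = {∅} := by
      ext Y
      simp only [mem_filter, mem_univ, true_and, mem_singleton, subset_empty]
      constructor
      · rintro ⟨h, _⟩; exact h
      · rintro rfl; exact ⟨rfl, fun v => by simp⟩
    rw [this, sum_singleton, ncyc_eq]
    simp
  · obtain ⟨d, hd⟩ := nonempty_iff_ne_empty.2 h0
    refine sum_involution (fun Y _ => tog α d Y) ?_ ?_ ?_ ?_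
    · intro Y hY
      exact ncyc_tog (mem_filter.1 hY).2.2 d
    · intro Y hY _ he
      by_cases hdY : d ∈ Y
      · have h1 : tog α d Y = Y \ cyc α d := if_pos hdY
        rw [h1] at he
        rw [← he] at hdY
        exact (mem_sdiff.1 hdY).2 (d_mem_cyc α d)
      · have h1 : tog α d Y = Y ∪ cyc α d := if_neg hdY
        rw [h1] at he
        exact hdY (he ▸ mem_union_right _ (d_mem_cyc α d))
    · intro Y hY
      obtain ⟨_, h1, h2⟩ := mem_filter.1 hY
      refine mem_filter.2 ⟨mem_univ _, ?_, inv_tog h2 d⟩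
      unfold tog
      split_ifs
      · exact sdiff_subset.trans h1
      · exact union_subset h1 (cyc_subset hD hd)
    · intro Y hY
      exact tog_tog (mem_filter.1 hY).2.2 d

/-! ### Polya -/

/-- `f` is in the orbit of `e` -/
def R (α : Perm V) (e f : Sym2 V) : Prop := ∃ k : ℕ, f = Sym2.map (α ^ k : Perm V) e

theorem R_refl (α : Perm V) (e : Sym2 V) : R α e e := ⟨0, by simp⟩

theorem R_trans {α : Perm V} {e f g : Sym2 V} (h1 : R α e f) (h2 : R α f g) : R α e g := by
  obtain ⟨k, rfl⟩ := h1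
  obtain ⟨l, rfl⟩ := h2
  refine ⟨l + k, ?_⟩
  rw [Sym2.map_map, pow_add, Perm.coe_mul]

theorem R_symm [Fintype V] {α : Perm V} {e f : Sym2 V} (h : R α e f) : R α f e := by
  obtain ⟨k, rfl⟩ := h
  refine ⟨k * (orderOf α - 1), ?_⟩
  rw [Sym2.map_map, ← Perm.coe_mul, ← pow_add]
  have hpos : 0 < orderOf α := orderOf_pos α
  have : k * (orderOf α - 1) + k = orderOf α * k := by
    obtain ⟨n, hn⟩ : ∃ n, orderOf α = n + 1 := ⟨orderOf α - 1, by omega⟩
    rw [hn]; simp; ring
  rw [this, pow_mul, pow_orderOf_eq_one, one_pow]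
  simp

noncomputable def orb [Fintype V] (α : Perm V) (e : Sym2 V) : Finset (Sym2 V) :=
  univ.filter fun f => ∃ k : ℕ, f = Sym2.map (α ^ k : Perm V) e

theorem mem_orb [Fintype V] {α : Perm V} {e f : Sym2 V} : f ∈ orb α e ↔ R α e f := by
  simp [orb, R]

theorem orb_eq [Fintype V] {α : Perm V} {e f : Sym2 V} (h : R α e f) : orb α f = orb α e := by
  ext x
  rw [mem_orb, mem_orb]
  exact ⟨fun hx => R_trans h hx, fun hx => R_trans (R_symm h) hx⟩

theorem mem_pairOrbits [Fintype V] {α : Perm V} {O : Finset (Sym2 V)} :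
    O ∈ pairOrbits α ↔ ∃ e : Sym2 V, ¬ e.IsDiag ∧ orb α e = O := by
  simp [pairOrbits, orb]

theorem R_mem {α : Perm V} {E : Finset (Sym2 V)} (h : ∀ e, e ∈ E ↔ Sym2.map α e ∈ E)
    {e f : Sym2 V} (hR : R α e f) (he : e ∈ E) : f ∈ E := by
  obtain ⟨k, rfl⟩ := hR
  induction k with
  | zero => simpa using he
  | succ n ih =>
    rw [pow_succ', Perm.coe_mul, ← Sym2.map_map]
    exact (h _).1 ih

theorem R_diag {α : Perm V} {e f : Sym2 V} (h : R α e f) (he : ¬ e.IsDiag) : ¬ f.IsDiag := by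
  obtain ⟨k, rfl⟩ := h
  rwa [Sym2.isDiag_map (Equiv.injective _)]

theorem taskPolya : TaskPolya := by
  intro V _ α
  unfold Z
  rw [Finset.prod_one_add]
  refine sum_bij' (fun E _ => E.image (orb α)) (fun t _ => t.biUnion id) ?_ ?_ ?_ ?_ ?_
  · intro E hE
    obtain ⟨_, h1, h2⟩ := mem_filter.1 hE
    rw [mem_powerset]
    intro O hO
    obtain ⟨e, he, rfl⟩ := mem_image.1 hO
    exact mem_pairOrbits.2 ⟨e, h1 e he, rfl⟩
  · intro t ht
    rw [mem_powerset] at ht
    refine mem_filter.2 ⟨mem_univ _, ?_, ?_⟩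
    · intro e he
      obtain ⟨O, hO, heO⟩ := mem_biUnion.1 he
      obtain ⟨e', he', rfl⟩ := mem_pairOrbits.1 (ht hO)
      exact R_diag (mem_orb.1 heO) he'
    · intro e
      rw [mem_biUnion, mem_biUnion]
      have hR : R α e (Sym2.map α e) := ⟨1, by simp⟩
      constructor
      · rintro ⟨O, hO, heO⟩
        refine ⟨O, hO, ?_⟩
        obtain ⟨e', he', rfl⟩ := mem_pairOrbits.1 (ht hO)
        exact mem_orb.2 (R_trans (mem_orb.1 heO) hR)
      · rintro ⟨O, hO, heO⟩
        refine ⟨O, hO, ?_⟩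
        obtain ⟨e', he', rfl⟩ := mem_pairOrbits.1 (ht hO)
        exact mem_orb.2 (R_trans (mem_orb.1 heO) (R_symm hR))
  · intro E hE
    obtain ⟨_, h1, h2⟩ := mem_filter.1 hE
    ext e
    rw [mem_biUnion]
    constructor
    · rintro ⟨O, hO, heO⟩
      obtain ⟨e', he', rfl⟩ := mem_image.1 hO
      exact R_mem h2 (mem_orb.1 heO) he'
    · intro he
      exact ⟨orb α e, mem_image_of_mem _ he, mem_orb.2 (R_refl α e)⟩
  · intro t ht
    rw [mem_powerset] at ht
    ext O
    rw [mem_image]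
    constructor
    · rintro ⟨e, he, rfl⟩
      obtain ⟨O, hO, heO⟩ := mem_biUnion.1 he
      obtain ⟨e', he', rfl⟩ := mem_pairOrbits.1 (ht hO)
      rw [orb_eq (mem_orb.1 heO)]
      exact hO
    · intro hO
      obtain ⟨e', he', rfl⟩ := mem_pairOrbits.1 (ht hO)
      exact ⟨e', mem_biUnion.2 ⟨_, hO, mem_orb.2 (R_refl α e')⟩, rfl⟩
  · intro E hE
    obtain ⟨_, h1, h2⟩ := mem_filter.1 hE
    rw [prod_pow_eq_pow_sum]
    congr 1
    have hE' : E = (E.image (orb α)).biUnion id := by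
      ext e
      rw [mem_biUnion]
      constructor
      · intro he
        exact ⟨orb α e, mem_image_of_mem _ he, mem_orb.2 (R_refl α e)⟩
      · rintro ⟨O, hO, heO⟩
        obtain ⟨e', he', rfl⟩ := mem_image.1 hO
        exact R_mem h2 (mem_orb.1 heO) he'
    conv_lhs => rw [hE']
    rw [card_biUnion]
    · rfl
    · intro O hO O' hO' hne
      obtain ⟨e, he, rfl⟩ := mem_image.1 hO
      obtain ⟨e', he', rfl⟩ := mem_image.1 hO'
      rw [Function.onFun, disjoint_left]
      intro x hx hx'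
      apply hne
      rw [← orb_eq (mem_orb.1 hx), ← orb_eq (mem_orb.1 hx')]

end Pool.Agent.H378R3.C23
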